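import Mathlib
import Pool.Agent.Lib.MP_2a3b48_an.Defs
import Pool.Agent.Lib.MP_2a3b48_an.Gen2

/-!
For every `N ≥ 2` there is a Cantor set in `ℂ^N` whose rational hull has nonempty interior and
equals its polynomial hull.  Former hand-in, now the case `K = {0}` of the general statement.
-/

namespace Pool.Agent.Lib.MP_2a3b48_an.Variants.CantorHullAll

open Pool.Agent.Lib.MP_2a3b48_an

theorem result (N : ℕ) (hN : 2 ≤ N) : ∃ X : Set (Fin N → ℂ),
    IsCantorSet X ∧ (interior (ratHull X)).Nonempty ∧ polyHull X = ratHull X := by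
  obtain ⟨X, h1, -, -, h2, h3, -⟩ := Gen.main hN (K := {0}) (V := Set.univ) (W := Set.univ)
    (a := 0) isCompact_singleton rfl (starConvex_singleton 0) isOpen_univ (Set.subset_univ _)
    isOpen_univ (Set.subset_univ _)
  exact ⟨X, h1, ⟨0, h2 rfl⟩, h3⟩

end Pool.Agent.Lib.MP_2a3b48_an.Variants.CantorHullAll
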